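import Mathlib
import Pool.Agent.Run7.h493.Stage

set_option autoImplicit false
set_option linter.unusedSectionVars false
set_option linter.unusedVariables false

/-! Few conflicts: one or two rounds of Kempe changes are enough. -/

namespace Pool.Agent.Run7.h80.ST

open Finset Run7.h493.Reg Run7.h493.Init Run7.h493.Stage

variable {V B : Type*} [Fintype V] [DecidableEq V] [Fintype B] [DecidableEq B]
variable {H : SimpleGraph V} {bl : V → B} {t : B → V}
variable {a c : H.ConnectedComponent → V} {f : V → Fin 4}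

/-- membership in the flipped part for non-root components -/
lemma newthree {k : Fin 4} {kk : ℕ} (hk : k ≠ 3) (hst : St H bl t a c f kk)
    (hac : ∀ C, Cyc H C → H.connectedComponentMk (a C) = C ∧ H.Adj (a C) (c C))
    {b : B} {s : V} (hs : H.connectedComponentMk s = H.connectedComponentMk (t b))
    (h : nf H bl t a c f k s = 3) :
    (f s = 3 ∧ ¬ Fl H bl t a c f k (bl s)) ∨
      (f s = k ∧ ∃ w, Fl H bl t a c f k (bl w) ∧ f w = 3 ∧ H.Adj w s ∧
        nf H bl t a c f k w = k ∧ H.connectedComponentMk w = H.connectedComponentMk (t b)) := by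
  rcases (nf_three hk).1 h with h1 | ⟨h1, h2⟩
  · exact Or.inl h1
  · right
    refine ⟨h1, ?_⟩
    rcases fl_cases hst.inj h1 h2 with ⟨C, hC, h3, -, -⟩ | ⟨w, h3, h4, h5⟩
    · exfalso
      apply hC.2
      refine ⟨b, ?_⟩
      rw [← hs, h3]
      exact (hac C hC.1).1
    · exact ⟨w, h3, h4, h5, (nf_k hk).2 (Or.inr ⟨h4, h3⟩), (cc_adj h5).trans hs⟩

/-- the colour two is not changed by a round with colour zero or one -/
lemma nf_two {k : Fin 4} (hk : k = 0 ∨ k = 1) {v : V} (h : nf H bl t a c f k v = 2) :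
    f v = 2 := by
  unfold nf at h
  split_ifs at h
  · rcases hk with rfl | rfl
    · revert h; generalize f v = x; revert x; decide
    · revert h; generalize f v = x; revert x; decide
  · exact h

lemma nf_one {v : V} (h : nf H bl t a c f 0 v = 1) : f v = 1 := by
  unfold nf at h
  split_ifs at h
  · revert h; generalize f v = x; revert x; decide
  · exact h

/-- One or two rounds. -/
theorem core (ht : MaxIT H bl t)
    (hac : ∀ C, Cyc H C → H.connectedComponentMk (a C) = C ∧ H.Adj (a C) (c C))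
    (hf1 : ∀ u v, bl u = bl v → f u = f v → u = v)
    (hf2 : ∀ u v, H.Adj u v → f u = f v → Del t a c u v)
    (hf3 : ∀ v, f v = 3 ↔ v = t (bl v))
    (hP : (∀ u v, H.Adj u v → f u = f v → f u = 0) ∨
      ((∀ u v, H.Adj u v → f u = f v → f u ≠ 2) ∧
        ∀ a b c d, H.Adj a b → H.Adj b c → H.Adj c d → H.Adj d a → a ≠ c → b ≠ d → False)) :
    ∃ g : V → Fin 4, (∀ u v, H.Adj u v → g u ≠ g v) ∧
      (∀ u v, bl u = bl v → g u = g v → u = v) := by
  classical
  have hgood : ∀ b, Region H bl t b → Good H t b := fun b hb => region_good ht hb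
  have ht3 : ∀ b, f (t b) = 3 := fun b => (hf3 _).2 (by rw [ht.it.bl])
  have hcc : ∀ {u v : V}, H.Adj u v → H.connectedComponentMk u = H.connectedComponentMk v :=
    fun h => cc_adj h
  -- state 0
  have hun0 : ∀ C, Un H t C → ∀ s, H.connectedComponentMk s = C → f s ≠ 3 := by
    intro C hC s hs h
    apply hC.2
    refine ⟨bl s, ?_⟩
    rw [← (hf3 s).1 h]
    exact hs
  have hst0 : St H bl t a c f 0 := by
    refine ⟨hf1, ?_, ?_⟩
    · intro u v huv h
      obtain ⟨C, hC, h4⟩ := hf2 u v huv h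
      exact ⟨C, hC, hun0 C hC, Nat.zero_le _, h4⟩
    · intro s hs hr
      right
      refine ⟨bl s, hr, ?_⟩
      rw [← (hf3 s).1 hs]
  have hit0 : ∀ b, Region H bl t b → f (t b) = 3 ∧
      ∀ s, H.connectedComponentMk s = H.connectedComponentMk (t b) → f s = 3 → s = t b := by
    intro b hb
    refine ⟨ht3 b, fun s hs h => ?_⟩
    have h1 := (hf3 s).1 h
    have h2 := (hgood b hb).2 (bl s) (by rw [← h1]; exact hs)
    rw [h1, h2]
  have k0 : (0 : Fin 4) ≠ 3 := by decide
  have k1 : (1 : Fin 4) ≠ 3 := by decide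
  have hF0 : ∀ u s s', f u = 0 → H.Adj u s → H.Adj u s' → f s = 3 → f s' = 3 →
      Region H bl t (bl s) → s = s' := by
    intro u s s' hu h1 h2 h3 h4 h5
    rcases hst0.reg s h3 h5 with hC | ⟨b, hb, hs⟩
    · exact absurd h3 (hun0 _ hC s rfl)
    · have h6 := (hit0 b hb).2 s hs h3
      have h7 := (hit0 b hb).2 s' (((hcc h2).symm.trans (hcc h1)).trans hs) h4
      rw [h6, h7]
  have hst1 := stage (k := 0) (kk := 0) rfl k0 hst0 hac hF0
  -- no colour three at the ends of a conflict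
  have hne3 : ∀ {g : V → Fin 4} {kk : ℕ}, St H bl t a c g kk → ∀ u v, H.Adj u v → g u = g v →
      g u ≠ 3 := by
    intro g kk hst u v huv h
    obtain ⟨C, hC, hq, hle, h4⟩ := hst.conf u v huv h
    apply hq
    rcases h4 with ⟨h4, -⟩ | ⟨h4, -⟩
    · rw [h4]; exact (hac C hC.1).1
    · rw [h4, ← cc_adj (hac C hC.1).2]; exact (hac C hC.1).1
  rcases hP with hP | ⟨hP, hc4⟩
  · refine ⟨_, ?_, hst1.inj⟩
    intro u v huv h
    have h3 := hne3 hst1 u v huv h
    obtain ⟨C, hC, hq, hle, h4⟩ := hst1.conf u v huv h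
    have h12 : nf H bl t a c f 0 u = 1 ∨ nf H bl t a c f 0 u = 2 := by
      revert hle h3
      generalize nf H bl t a c f 0 u = x
      revert x
      decide
    rcases h12 with h12 | h12
    · have e1 := nf_one h12
      have e2 := nf_one (h ▸ h12 : nf H bl t a c f 0 v = 1)
      have := hP u v huv (e1.trans e2.symm)
      rw [e1] at this
      exact absurd this (by decide)
    · have e1 := nf_two (Or.inl rfl) h12
      have e2 := nf_two (Or.inl rfl) (h ▸ h12 : nf H bl t a c f 0 v = 2)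
      have := hP u v huv (e1.trans e2.symm)
      rw [e1] at this
      exact absurd this (by decide)
  -- state 1
  set f1 := nf H bl t a c f 0 with hf1def
  have hit1 : ∀ b, Region H bl t b → (f1 (t b) = 3 ∧
      ∀ s, H.connectedComponentMk s = H.connectedComponentMk (t b) → f1 s = 3 → s = t b) ∨
      (f1 (t b) = 0 ∧
      ∀ s, H.connectedComponentMk s = H.connectedComponentMk (t b) → f1 s = 3 →
        H.Adj (t b) s) := by
    intro b hb
    obtain ⟨h1, h2⟩ := hit0 b hb
    by_cases hfl : Fl H bl t a c f 0 (bl (t b))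
    · right
      refine ⟨(nf_k k0).2 (Or.inr ⟨h1, hfl⟩), fun s hs h => ?_⟩
      rcases newthree k0 hst0 hac hs h with ⟨h3, h4⟩ | ⟨h3, w, h4, h5, h6, -, h7⟩
      · rw [h2 s hs h3] at h4
        exact absurd hfl h4
      · rw [← h2 w h7 h5]
        exact h6
    · left
      refine ⟨(nf_three k0).2 (Or.inl ⟨h1, hfl⟩), fun s hs h => ?_⟩
      rcases newthree k0 hst0 hac hs h with ⟨h3, h4⟩ | ⟨h3, w, h4, h5, h6, -, h7⟩
      · exact h2 s hs h3
      · rw [h2 w h7 h5] at h4
        exact absurd h4 hfl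
  have hun1 : ∀ C, Un H t C → (∀ s, H.connectedComponentMk s = C → f1 s ≠ 3) ∨
      ((∀ s, H.connectedComponentMk s = C → f1 s = 3 → s = a C) ∧ f1 (c C) = 0 ∧
        f1 (a C) = 3) := by
    intro C hC
    by_cases hex : ∃ s, H.connectedComponentMk s = C ∧ f1 s = 3
    · right
      obtain ⟨s, hs, h⟩ := hex
      have key : ∀ s, H.connectedComponentMk s = C → f1 s = 3 →
          s = a C ∧ f (a C) = 0 ∧ f (c C) = 0 := by
        intro s hs h
        rcases (nf_three k0).1 h with ⟨h1, -⟩ | ⟨h1, h2⟩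
        · exact absurd h1 (hun0 C hC s hs)
        · exact (quiet k0 hst0.inj hac (hun0 C hC) hs h1 h2).2
      obtain ⟨h1, h2, h3⟩ := key s hs h
      refine ⟨fun s hs h => (key s hs h).1, ?_, by rw [← h1]; exact h⟩
      apply (nf_k k0).2
      left
      refine ⟨h3, fun hfl => ?_⟩
      obtain ⟨e1, e2⟩ := hac C hC.1
      have := (quiet k0 hst0.inj hac (hun0 C hC) ((hcc e2).symm.trans e1) h3 hfl).2.1
      rw [this] at e2
      exact H.loopless.irrefl _ e2
    · left
      intro s hs h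
      exact hex ⟨s, hs, h⟩
  have hF1 : ∀ u s s', f1 u = 1 → H.Adj u s → H.Adj u s' → f1 s = 3 → f1 s' = 3 →
      Region H bl t (bl s) → s = s' := by
    intro u s s' hu h1 h2 h3 h4 h5
    rcases hst1.reg s h3 h5 with hC | ⟨b, hb, hs⟩
    · rcases hun1 _ hC with h6 | ⟨h6, -, -⟩
      · exact absurd h3 (h6 s rfl)
      · rw [h6 s rfl h3, h6 s' ((hcc h2).symm.trans (hcc h1)) h4]
    · have hs' : H.connectedComponentMk s' = H.connectedComponentMk (t b) :=
        ((hcc h2).symm.trans (hcc h1)).trans hs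
      rcases hit1 b hb with ⟨h6, h7⟩ | ⟨h6, h7⟩
      · rw [h7 s hs h3, h7 s' hs' h4]
      · by_contra hne
        refine hc4 (t b) s u s' (h7 s hs h3) h1.symm h2 (h7 s' hs' h4).symm ?_ hne
        intro h
        rw [h, hu] at h6
        exact absurd h6 (by decide)
  have hst2 := stage (k := 1) (kk := 1) rfl k1 hst1 hac hF1
  refine ⟨_, ?_, hst2.inj⟩
  intro u v huv h
  have h3 := hne3 hst2 u v huv h
  obtain ⟨C, hC, hq, hle, h4⟩ := hst2.conf u v huv h
  have h12 : nf H bl t a c f1 1 u = 2 := by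
    revert hle h3
    generalize nf H bl t a c f1 1 u = x
    revert x
    decide
  have e1 : f u = 2 := nf_two (Or.inl rfl) (nf_two (f := f1) (Or.inr rfl) h12)
  have e2 : f v = 2 := nf_two (Or.inl rfl)
    (nf_two (f := f1) (Or.inr rfl) (h ▸ h12 : nf H bl t a c f1 1 v = 2))
  exact hP u v huv (e1.trans e2.symm) e1

/-- Permuting the colours. -/
theorem perm (ht : MaxIT H bl t)
    (hac : ∀ C, Cyc H C → H.connectedComponentMk (a C) = C ∧ H.Adj (a C) (c C))
    (hf1 : ∀ u v, bl u = bl v → f u = f v → u = v)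
    (hf2 : ∀ u v, H.Adj u v → f u = f v → Del t a c u v)
    (hf3 : ∀ v, f v = 3 ↔ v = t (bl v)) (σ : Equiv.Perm (Fin 4)) (hσ : σ 3 = 3)
    (hP : (∀ u v, H.Adj u v → f u = f v → σ (f u) = 0) ∨
      ((∀ u v, H.Adj u v → f u = f v → σ (f u) ≠ 2) ∧
        ∀ a b c d, H.Adj a b → H.Adj b c → H.Adj c d → H.Adj d a → a ≠ c → b ≠ d → False)) :
    ∃ g : V → Fin 4, (∀ u v, H.Adj u v → g u ≠ g v) ∧
      (∀ u v, bl u = bl v → g u = g v → u = v) := by
  refine core (f := fun v => σ (f v)) ht hac ?_ ?_ ?_ ?_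
  · intro u v h1 h2
    exact hf1 u v h1 (σ.injective h2)
  · intro u v h1 h2
    exact hf2 u v h1 (σ.injective h2)
  · intro v
    rw [← hf3 v]
    constructor
    · intro h
      exact σ.injective (h.trans hσ.symm)
    · intro h
      show σ (f v) = 3
      rw [h, hσ]
  · rcases hP with hP | ⟨hP, hc4⟩
    · left
      intro u v h1 h2
      exact hP u v h1 (σ.injective h2)
    · right
      refine ⟨fun u v h1 h2 => hP u v h1 (σ.injective h2), hc4⟩

/-- The number of missed cycles is at most one, or at most two and there is no four-cycle. -/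
theorem few (hbl : ∀ b, (Finset.univ.filter (fun v => bl v = b)).card = 4)
    (hdeg : ∀ u a b c, H.Adj u a → H.Adj u b → H.Adj u c → a = b ∨ a = c ∨ b = c)
    (ht : MaxIT H bl t)
    (hU : (∀ C C', Un H t C → Un H t C' → C = C') ∨
      ((∀ C C' C'', Un H t C → Un H t C' → Un H t C'' → C = C' ∨ C = C'' ∨ C' = C'') ∧
        ∀ a b c d, H.Adj a b → H.Adj b c → H.Adj c d → H.Adj d a → a ≠ c → b ≠ d → False)) :
    ∃ g : V → Fin 4, (∀ u v, H.Adj u v → g u ≠ g v) ∧
      (∀ u v, bl u = bl v → g u = g v → u = v) := by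
  classical
  obtain ⟨a, c, hac⟩ := exists_open H
  obtain ⟨f, hf1, hf2, hf3⟩ := init ht.it hbl hdeg a c hac
  have hun0 : ∀ C, Un H t C → ∀ s, H.connectedComponentMk s = C → f s ≠ 3 := by
    intro C hC s hs h
    apply hC.2
    refine ⟨bl s, ?_⟩
    rw [← (hf3 s).1 h]
    exact hs
  -- the conflict at a cycle has the colour of its opened vertex
  have hcol : ∀ u v, H.Adj u v → f u = f v → ∃ C, Un H t C ∧ f u = f (a C) := by
    intro u v huv h
    obtain ⟨C, hC, h4⟩ := hf2 u v huv h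
    refine ⟨C, hC, ?_⟩
    rcases h4 with ⟨h4, h5⟩ | ⟨h4, h5⟩
    · rw [h4]
    · rw [h, h5]
  have hcol3 : ∀ C, Un H t C → f (a C) ≠ 3 := fun C hC => hun0 C hC _ (hac C hC.1).1
  rcases hU with hU | ⟨hU, hc4⟩
  · by_cases hex : ∃ C, Un H t C
    · obtain ⟨C, hC⟩ := hex
      refine perm ht hac hf1 hf2 hf3 (Equiv.swap (f (a C)) 0)
        (Equiv.swap_apply_of_ne_of_ne (hcol3 C hC).symm (by decide)) (Or.inl ?_)
      intro u v huv h
      obtain ⟨C', hC', h'⟩ := hcol u v huv h
      rw [hU C' C hC' hC] at h'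
      rw [h', Equiv.swap_apply_left]
    · refine perm ht hac hf1 hf2 hf3 (Equiv.refl _) rfl (Or.inl ?_)
      intro u v huv h
      obtain ⟨C', hC', h'⟩ := hcol u v huv h
      exact absurd ⟨C', hC'⟩ hex
  · -- a colour without conflict
    have hm : ∃ m : Fin 4, m ≠ 3 ∧ ∀ u v, H.Adj u v → f u = f v → f u ≠ m := by
      by_contra hcon
      push Not at hcon
      obtain ⟨u0, v0, h0, e0, g0⟩ := hcon 0 (by decide)
      obtain ⟨u1, v1, h1, e1, g1⟩ := hcon 1 (by decide)
      obtain ⟨u2, v2, h2, e2, g2⟩ := hcon 2 (by decide)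
      obtain ⟨C0, hC0, d0⟩ := hcol _ _ h0 e0
      obtain ⟨C1, hC1, d1⟩ := hcol _ _ h1 e1
      obtain ⟨C2, hC2, d2⟩ := hcol _ _ h2 e2
      rcases hU C0 C1 C2 hC0 hC1 hC2 with h | h | h
      · rw [h, ← d1, g0, g1] at d0
        exact absurd d0 (by decide)
      · rw [h, ← d2, g0, g2] at d0
        exact absurd d0 (by decide)
      · rw [h, ← d2, g1, g2] at d1
        exact absurd d1 (by decide)
    obtain ⟨m, hm3, hm⟩ := hm
    refine perm ht hac hf1 hf2 hf3 (Equiv.swap m 2)
      (Equiv.swap_apply_of_ne_of_ne hm3.symm (by decide)) (Or.inr ⟨?_, hc4⟩)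
    intro u v huv h h'
    rw [Equiv.swap_apply_eq_iff, Equiv.swap_apply_right] at h'
    exact hm u v huv h h'

end Pool.Agent.Run7.h80.ST
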