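import Mathlib
import Pool.Agent.Run7.h80.ST.One

set_option autoImplicit false
set_option linter.unusedSectionVars false
set_option linter.unusedVariables false

/-! Counting in the region: four times the number of missed cycles is at most the number of
triangles. -/

namespace Pool.Agent.Run7.h80.ST

open Finset Run7.h493.Reg Run7.h493.Init Run7.h493.Stage

variable {V B : Type*} [Fintype V] [DecidableEq V] [Fintype B] [DecidableEq B]
variable {H : SimpleGraph V} {bl : V → B} {t : B → V}

open Classical in
/-- the vertices of a component -/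
noncomputable def Fb (H : SimpleGraph V) (D : H.ConnectedComponent) : Finset V :=
  Finset.univ.filter (fun v => H.connectedComponentMk v = D)

lemma mem_Fb {D : H.ConnectedComponent} {v : V} : v ∈ Fb H D ↔ H.connectedComponentMk v = D := by
  classical
  simp [Fb]

lemma exists_mem_Fb (D : H.ConnectedComponent) : ∃ v, v ∈ Fb H D := by
  obtain ⟨v, hv⟩ := Quot.exists_rep D
  exact ⟨v, mem_Fb.2 hv⟩

lemma three_le {D : H.ConnectedComponent} (hD : Cyc H D) : 3 ≤ (Fb H D).card := by
  classical
  obtain ⟨v, hv⟩ := exists_mem_Fb D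
  obtain ⟨a, b, hab, ha, hb⟩ := hD v (mem_Fb.1 hv)
  have h1 : ({v, a, b} : Finset V) ⊆ Fb H D := by
    intro x hx
    simp only [Finset.mem_insert, Finset.mem_singleton] at hx
    rcases hx with rfl | rfl | rfl
    · exact hv
    · exact mem_Fb.2 ((cc_adj ha).symm.trans (mem_Fb.1 hv))
    · exact mem_Fb.2 ((cc_adj hb).symm.trans (mem_Fb.1 hv))
  have h2 : ({v, a, b} : Finset V).card = 3 := by
    rw [Finset.card_eq_three]
    exact ⟨v, a, b, ha.ne, hb.ne, hab, rfl⟩
  rw [← h2]
  exact Finset.card_le_card h1

/-- a triangle component -/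
def Tri (H : SimpleGraph V) (D : H.ConnectedComponent) : Prop :=
  Cyc H D ∧ (Fb H D).card = 3

lemma tri_clique {D : H.ConnectedComponent} (hD : Tri H D) : H.IsNClique 3 (Fb H D) := by
  classical
  rw [SimpleGraph.isNClique_iff]
  refine ⟨?_, hD.2⟩
  intro x hx y hy hxy
  rw [Finset.mem_coe] at hx hy
  obtain ⟨a, b, hab, ha, hb⟩ := hD.1 x (mem_Fb.1 hx)
  have ha' : a ∈ Fb H D := mem_Fb.2 ((cc_adj ha).symm.trans (mem_Fb.1 hx))
  have hb' : b ∈ Fb H D := mem_Fb.2 ((cc_adj hb).symm.trans (mem_Fb.1 hx))
  have h1 : ({x, a, b} : Finset V) ⊆ Fb H D := by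
    intro z hz
    simp only [Finset.mem_insert, Finset.mem_singleton] at hz
    rcases hz with rfl | rfl | rfl
    · exact hx
    · exact ha'
    · exact hb'
  have h2 : ({x, a, b} : Finset V).card = 3 := by
    rw [Finset.card_eq_three]
    exact ⟨x, a, b, ha.ne, hb.ne, hab, rfl⟩
  have h3 : ({x, a, b} : Finset V) = Fb H D :=
    Finset.eq_of_subset_of_card_le h1 (by rw [h2, hD.2])
  rw [← h3] at hy
  simp only [Finset.mem_insert, Finset.mem_singleton] at hy
  rcases hy with rfl | rfl | rfl
  · exact absurd rfl hxy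
  · exact ha
  · exact hb

open Classical in
lemma tri_card : (Finset.univ.filter (fun D => Tri H D)).card ≤
    (Finset.univ.filter (fun S : Finset V => H.IsNClique 3 S)).card := by
  refine Finset.card_le_card_of_injOn (fun D => Fb H D) ?_ ?_
  · intro D hD
    rw [Finset.mem_coe, Finset.mem_filter] at hD
    rw [Finset.mem_coe, Finset.mem_filter]
    exact ⟨Finset.mem_univ _, tri_clique hD.2⟩
  · intro D hD D' hD' h
    obtain ⟨v, hv⟩ := exists_mem_Fb D
    have h1 : v ∈ Fb H D' := by
      have : Fb H D = Fb H D' := h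
      rw [← this]; exact hv
    exact (mem_Fb.1 hv).symm.trans (mem_Fb.1 h1)

open Classical in
/-- Four times the number of missed cycles is at most the number of triangles. -/
theorem count (hbl : ∀ b, (Finset.univ.filter (fun v => bl v = b)).card = 4)
    (ht : MaxIT H bl t) :
    4 * (Finset.univ.filter (fun C => Un H t C)).card ≤
      (Finset.univ.filter (fun S : Finset V => H.IsNClique 3 S)).card := by
  set U := Finset.univ.filter (fun C => Un H t C) with hUdef
  set R : Finset B := Finset.univ.filter (fun b => Region H bl t b) with hRdef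
  set κ : B → H.ConnectedComponent := fun b => H.connectedComponentMk (t b) with hκ
  have hinj : Set.InjOn κ (R : Set B) := by
    intro b hb b' hb' h
    rw [Finset.mem_coe, hRdef, Finset.mem_filter] at hb hb'
    exact (region_good ht hb'.2).2 b h
  have hdisj : Disjoint U (R.image κ) := by
    rw [Finset.disjoint_left]
    intro C hC hC'
    obtain ⟨b, hb, hbC⟩ := Finset.mem_image.1 hC'
    exact (Finset.mem_filter.1 hC).2.2 ⟨b, hbC⟩
  set E := U ∪ R.image κ with hE
  have hEcard : E.card = U.card + R.card := by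
    rw [hE, Finset.card_union_of_disjoint hdisj, Finset.card_image_of_injOn hinj]
  have hEcyc : ∀ D ∈ E, Cyc H D := by
    intro D hD
    rcases Finset.mem_union.1 hD with h | h
    · exact (Finset.mem_filter.1 h).2.1
    · obtain ⟨b, hb, rfl⟩ := Finset.mem_image.1 h
      exact (region_good ht (Finset.mem_filter.1 hb).2).1
  have hEblk : ∀ D ∈ E, ∀ v, H.connectedComponentMk v = D → bl v ∈ R := by
    intro D hD v hv
    rw [hRdef, Finset.mem_filter]
    refine ⟨Finset.mem_univ _, ?_⟩
    rcases Finset.mem_union.1 hD with h | h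
    · have h1 := (Finset.mem_filter.1 h).2
      rw [← hv] at h1
      exact region_start v h1.1 h1.2
    · obtain ⟨b, hb, hbD⟩ := Finset.mem_image.1 h
      exact region_step (Finset.mem_filter.1 hb).2 v (hv.trans hbD.symm)
  -- the number of vertices
  have h1 : ∑ D ∈ E, (Fb H D).card ≤ 4 * R.card := by
    have e1 : (E.biUnion (fun D => Fb H D)).card = ∑ D ∈ E, (Fb H D).card := by
      apply Finset.card_biUnion
      intro D _ D' _ hne
      show Disjoint (Fb H D) (Fb H D')
      rw [Finset.disjoint_left]
      intro v hv hv'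
      exact hne ((mem_Fb.1 hv).symm.trans (mem_Fb.1 hv'))
    have e2 : E.biUnion (fun D => Fb H D) ⊆
        R.biUnion (fun b => Finset.univ.filter (fun v => bl v = b)) := by
      intro v hv
      obtain ⟨D, hD, hvD⟩ := Finset.mem_biUnion.1 hv
      rw [Finset.mem_biUnion]
      exact ⟨bl v, hEblk D hD v (mem_Fb.1 hvD), by simp⟩
    have e3 : (R.biUnion (fun b => Finset.univ.filter (fun v => bl v = b))).card ≤
        R.card * 4 := by
      apply Finset.card_biUnion_le_card_mul
      intro b _
      exact (hbl b).le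
    rw [← e1, mul_comm]
    exact (Finset.card_le_card e2).trans e3
  have h2 : ∑ D ∈ E, 4 ≤ ∑ D ∈ E, ((Fb H D).card + if Tri H D then 1 else 0) := by
    apply Finset.sum_le_sum
    intro D hD
    have h3 := three_le (hEcyc D hD)
    by_cases hT : Tri H D
    · rw [if_pos hT]; omega
    · rw [if_neg hT]
      have : (Fb H D).card ≠ 3 := fun h => hT ⟨hEcyc D hD, h⟩
      omega
  rw [Finset.sum_add_distrib, Finset.sum_const, smul_eq_mul, hEcard] at h2
  have h3 : ∑ D ∈ E, (if Tri H D then 1 else 0) ≤ (Finset.univ.filter (fun D => Tri H D)).card := by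
    rw [← Finset.card_filter]
    exact Finset.card_le_card (Finset.filter_subset_filter _ (Finset.subset_univ _))
  have h4 := tri_card (H := H)
  omega

/-- The colouring. -/
theorem col (hbl : ∀ b, (Finset.univ.filter (fun v => bl v = b)).card = 4)
    (hdeg : ∀ u a b c, H.Adj u a → H.Adj u b → H.Adj u c → a = b ∨ a = c ∨ b = c)
    (n : ℕ) (hn : ∀ T : Finset (Finset V), (∀ S ∈ T, H.IsNClique 3 S) → T.card ≤ n)
    (h : n ≤ 7 ∨ (n ≤ 11 ∧ ∀ a b c d, H.Adj a b → H.Adj b c → H.Adj c d → H.Adj d a →
      a ≠ c → b ≠ d → False)) :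
    ∃ g : V → Fin 4, (∀ u v, H.Adj u v → g u ≠ g v) ∧
      (∀ u v, bl u = bl v → g u = g v → u = v) := by
  classical
  obtain ⟨t, ht⟩ := exists_max H bl hbl hdeg
  have h1 := count hbl ht
  have h2 : (Finset.univ.filter (fun S : Finset V => H.IsNClique 3 S)).card ≤ n :=
    hn _ (fun S hS => (Finset.mem_filter.1 hS).2)
  refine few hbl hdeg ht ?_
  rcases h with h | ⟨h, hc4⟩
  · left
    have h3 : (Finset.univ.filter (fun C => Un H t C)).card ≤ 1 := by omega
    intro C C' hC hC'
    exact Finset.card_le_one.1 h3 C (by simp [hC]) C' (by simp [hC'])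
  · right
    refine ⟨?_, hc4⟩
    have h3 : (Finset.univ.filter (fun C => Un H t C)).card ≤ 2 := by omega
    intro C C' C'' hC hC' hC''
    by_contra hcon
    push Not at hcon
    have h4 : 2 < (Finset.univ.filter (fun C => Un H t C)).card :=
      Finset.two_lt_card.2 ⟨C, by simp [hC], C', by simp [hC'], C'', by simp [hC''],
        hcon.1, hcon.2.1, hcon.2.2⟩
    omega

end Pool.Agent.Run7.h80.ST
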